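import Pool.Agent.Run7.h391.Data.D00
import Pool.Agent.Run7.h391.Data.D01
import Pool.Agent.Run7.h391.Data.D02
import Pool.Agent.Run7.h391.Data.D03
import Pool.Agent.Run7.h391.Data.D04
import Pool.Agent.Run7.h391.Data.D05
import Pool.Agent.Run7.h391.Data.D06
import Pool.Agent.Run7.h391.Data.D07
import Pool.Agent.Run7.h391.Data.D08
import Pool.Agent.Run7.h391.Data.D09
import Pool.Agent.Run7.h391.Data.D10
import Pool.Agent.Run7.h391.Data.D11

/-!
All certificates.
-/

namespace Run7.h391

/-- all certificates -/
def certs : List Cert := [cert0, cert1, cert2, cert3, cert4, cert5, cert6, cert7, cert8, cert9, cert10, cert11, cert12, cert13, cert14, cert15, cert16, cert17, cert18, cert19, cert20, cert21, cert22, cert23, cert24, cert25, cert26, cert27, cert28, cert29, cert30, cert31, cert32, cert33, cert34, cert35, cert36, cert37, cert38, cert39, cert40, cert41, cert42, cert43, cert44, cert45, cert46, cert47, cert48, cert49, cert50, cert51, cert52, cert53, cert54, cert55, cert56, cert57, cert58, cert59, cert60, cert61, cert62, cert63, cert64, cert65, cert66, cert67, cert68, cert69, cert70, cert71, cert72, cert73, cert74, cert75, cert76, cert77, cert78, cert79, cert80, cert81, cert82, cert83, cert84, cert85, cert86, cert87,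 cert88, cert89, cert90, cert91, cert92, cert93, cert94, cert95, cert96, cert97, cert98, cert99, cert100, cert101, cert102, cert103, cert104, cert105, cert106, cert107, cert108, cert109, cert110, cert111, cert112, cert113, cert114, cert115, cert116, cert117, cert118, cert119]

theorem certs_good : ∀ c ∈ certs, Good ((2 ^ 28 : ℕ) : ℝ) tabs c := by
  unfold certs
  simp only [List.forall_mem_cons]
  exact ⟨good0, good1, good2, good3, good4, good5, good6, good7, good8, good9, good10, good11, good12, good13, good14, good15, good16, good17, good18, good19, good20, good21, good22, good23, good24, good25, good26, good27, good28, good29, good30, good31, good32, good33, good34, good35, good36, good37, good38, good39, good40, good41, good42, good43, good44, good45, good46, good47, good48, good49, good50, good51, good52, good53, good54, good55, good56, good57, good58, good59, good60, good61, good62, good63, good64, good65, good66, good67, good68, good69, good70, good71, good72, good73, good74, good75, good76, good77, good78, good79, good80, good81, good82, good83, good84, good85, good86, good87, good88, good89, good90, good91, good92, good93, good94, good95, good96, good97, good98, good99, good100, good101, good102, good103, good104,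 good105, good106, good107, good108, good109, good110, good111, good112, good113, good114, good115, good116, good117, good118, good119, by simp⟩

theorem certs_chain : chainOK 100 93 certs = true := by decide +kernel

theorem certs_dp : dpRun 2728805025706902 certs 0 [0] = true := by decide +kernel

theorem certs_xy : xyS certs = 25507 := by decide +kernel

theorem certs_yy : yyS certs = 398421 := by decide +kernel

/-- the bound for large `n` -/
theorem large_bound : ∀ n : ℕ, 10 ^ 30 ≤ n → ENNReal.ofReal (0.785 * n) ≤ Pool.Agent.W972.AW.bestTime n :=
  main_bound (S := ((2 ^ 28 : ℕ) : ℝ)) (by norm_num) certs certs_good 93 certs_chain certs_dp (by rw [certs_xy]; norm_num) (by norm_num)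
    (by rw [certs_yy]; norm_num)

end Run7.h391
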