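import Pool.Agent.Run7.h391.Table

/-!
Certificates 0 to 9.
-/

namespace Run7.h391

/-- certificate for the time `1 / 64` -/
def cert0 : Cert where
  x := 7
  y := 93
  g := 1
  N := 64
  m := 1
  L2 := 0
  hs := 0
  rq := 0
  rg := 1
  sq := []
  sg := [0]
  C := [529]
  lam := [540963811296, 541099440785]
  rows := [⟨540963846823, [], [529], 0⟩,
    ⟨541099476312, [], [529], 0⟩]

theorem ok0 : certOK cert0 tab64 = true := by decide +kernel

theorem good0 : Good ((2 ^ 28 : ℕ) : ℝ) tabs cert0 := good_of ok0 (by decide +kernel)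

/-- certificate for the time `2 / 64` -/
def cert1 : Cert where
  x := 7
  y := 92
  g := 1
  N := 64
  m := 2
  L2 := 0
  hs := 0
  rq := 0
  rg := 1
  sq := []
  sg := [0]
  C := [1050]
  lam := [532426413963, 532576046986, 532456968928]
  rows := [⟨532426449493, [], [525], 0⟩,
    ⟨532576082516, [], [525], 0⟩,
    ⟨532457004458, [], [525], 0⟩]

theorem ok1 : certOK cert1 tab64 = true := by decide +kernel

theorem good1 : Good ((2 ^ 28 : ℕ) : ℝ) tabs cert1 := good_of ok1 (by decide +kernel)

/-- certificate for the time `3 / 64` -/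
def cert2 : Cert where
  x := 8
  y := 91
  g := 1
  N := 64
  m := 3
  L2 := 0
  hs := 121711202
  rq := 2
  rg := 1
  sq := [15602, 0]
  sg := [0]
  C := [43260]
  lam := [523845483958, 524196314971, 524112077602, 524462574929]
  rows := [⟨524053931214, [0, 319], [14420], 0⟩,
    ⟨524064295383, [21822, 246], [14420], 0⟩,
    ⟨523639591170, [43644, 173], [14420], 0⟩,
    ⟨523649621653, [65466, 100], [14420], 0⟩]

theorem ok2 : certOK cert2 tab64 = true := by decide +kernel

theorem good2 : Good ((2 ^ 28 : ℕ) : ℝ) tabs cert2 := good_of ok2 (by decide +kernel)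

/-- certificate for the time `4 / 64` -/
def cert3 : Cert where
  x := 9
  y := 90
  g := 1
  N := 64
  m := 4
  L2 := 0
  hs := 190261525
  rq := 1
  rg := 1
  sq := [19507]
  sg := [0]
  C := [86748]
  lam := [515443824173, 515873570329, 515977817490, 516081620811, 516510022730]
  rows := [⟨515788840564, [0], [21687], 0⟩,
    ⟨515688542516, [27172], [21687], 0⟩,
    ⟨515262745473, [54344], [21687], 0⟩,
    ⟨514836504590, [81516], [21687], 0⟩,
    ⟨514734875019, [108687], [21687], 0⟩]

theorem ok3 : certOK cert3 tab64 = true := by decide +kernel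

theorem good3 : Good ((2 ^ 28 : ℕ) : ℝ) tabs cert3 := good_of ok3 (by decide +kernel)

/-- certificate for the time `5 / 64` -/
def cert4 : Cert where
  x := 10
  y := 89
  g := 1
  N := 64
  m := 5
  L2 := 0
  hs := 236074721
  rq := 1
  rg := 1
  sq := [21729]
  sg := [0]
  C := [126890]
  lam := [507129161172, 507480558231, 508031606719, 507715198977, 508265316217, 508615211924]
  rows := [⟨507565763191, [0], [25248], 0⟩,
    ⟨507262481709, [30145], [25274], 0⟩,
    ⟨507158852345, [60290], [25300], 0⟩,
    ⟨506187767440, [90435], [25326], 0⟩,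
    ⟨506083208206, [120580], [25352], 0⟩,
    ⟨505778083208, [150725], [25378], 0⟩]

theorem ok4 : certOK cert4 tab64 = true := by decide +kernel

theorem good4 : Good ((2 ^ 28 : ℕ) : ℝ) tabs cert4 := good_of ok4 (by decide +kernel)

/-- certificate for the time `6 / 64` -/
def cert5 : Cert where
  x := 11
  y := 88
  g := 1
  N := 64
  m := 6
  L2 := 0
  hs := 285127200
  rq := 1
  rg := 1
  sq := [23880]
  sg := [0]
  C := [172986]
  lam := [498895361236, 499117159605, 499749770767, 499911872766, 500073181833, 500703761493, 500922593811]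
  rows := [⟨499430676531, [0], [28496], 0⟩,
    ⟨498865116525, [33004], [28552], 0⟩,
    ⟨498710492141, [66008], [28607], 0⟩,
    ⟨498085314148, [99012], [28663], 0⟩,
    ⟨497459306050, [132017], [28719], 0⟩,
    ⟨497302603886, [165021], [28775], 0⟩,
    ⟨496733300684, [198025], [28831], 0⟩]

theorem ok5 : certOK cert5 tab64 = true := by decide +kernel

theorem good5 : Good ((2 ^ 28 : ℕ) : ℝ) tabs cert5 := good_of ok5 (by decide +kernel)

/-- certificate for the time `7 / 64` -/
def cert6 : Cert where
  x := 12
  y := 88
  g := 1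
  N := 64
  m := 7
  L2 := 0
  hs := 334550845
  rq := 1
  rg := 1
  sq := [25867]
  sg := [0]
  C := [223538]
  lam := [490629298606, 490641220830, 491232227147, 492245303294, 491915585003, 492926567797, 493514733847, 493523658145]
  rows := [⟨491264506674, [0], [31327], 0⟩,
    ⟨490356648382, [35611], [31414], 0⟩,
    ⟨490028038215, [71222], [31500], 0⟩,
    ⟨490121440785, [106833], [31587], 0⟩,
    ⟨488871905689, [142445], [31674], 0⟩,
    ⟨488963319944, [178056], [31760], 0⟩,
    ⟨488631826796, [213667], [31847], 0⟩,
    ⟨487719601357, [249278], [31934], 0⟩]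

theorem ok6 : certOK cert6 tab64 = true := by decide +kernel

theorem good6 : Good ((2 ^ 28 : ℕ) : ℝ) tabs cert6 := good_of ok6 (by decide +kernel)

/-- certificate for the time `8 / 64` -/
def cert7 : Cert where
  x := 12
  y := 87
  g := 1
  N := 64
  m := 8
  L2 := 0
  hs := 397366241
  rq := 1
  rg := 1
  sq := [28191]
  sg := [0]
  C := [283824]
  lam := [482204440419, 482034324185, 482546788416, 483709859579, 484495703977, 485281047934, 486440362930, 486946984723, 486773062220]
  rows := [⟨482966475736, [0], [34529], 0⟩,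
    ⟨481709498381, [38635], [34647], 0⟩,
    ⟨481135020075, [77270], [34766], 0⟩,
    ⟨481211087287, [115904], [34885], 0⟩,
    ⟨480910131883, [154539], [35003], 0⟩,
    ⟨480608624558, [193173], [35122], 0⟩,
    ⟨480680903356, [231808], [35241], 0⟩,
    ⟨480100844899, [270442], [35359], 0⟩,
    ⟨478837763111, [309077], [35478], 0⟩]

theorem ok7 : certOK cert7 tab64 = true := by decide +kernel

theorem good7 : Good ((2 ^ 28 : ℕ) : ℝ) tabs cert7 := good_of ok7 (by decide +kernel)

/-- certificate for the time `9 / 64` -/
def cert8 : Cert where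
  x := 13
  y := 86
  g := 1
  N := 64
  m := 9
  L2 := 0
  hs := 2134461785
  rq := 1
  rg := 1
  sq := [65337]
  sg := [0]
  C := [381708]
  lam := [474872061283, 476663326908, 478454340376, 480245615711, 482036595716, 483827881061, 485618827301, 487410122960, 489201035133, 490988518751]
  rows := [⟨477518080055, [0], [41732], 0⟩,
    ⟨476361810318, [45137], [41808], 0⟩,
    ⟨475205540581, [90274], [41883], 0⟩,
    ⟨474049270844, [135411], [41959], 0⟩,
    ⟨472893001107, [180548], [42034], 0⟩,
    ⟨471736731370, [225685], [42110], 0⟩,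
    ⟨470580461633, [270822], [42185], 0⟩,
    ⟨469424191896, [315959], [42261], 0⟩,
    ⟨468267922159, [361096], [42336], 0⟩,
    ⟨467106289608, [406233], [42412], 0⟩]

theorem ok8 : certOK cert8 tab64 = true := by decide +kernel

theorem good8 : Good ((2 ^ 28 : ℕ) : ℝ) tabs cert8 := good_of ok8 (by decide +kernel)

/-- certificate for the time `10 / 64` -/
def cert9 : Cert where
  x := 14
  y := 85
  g := 1
  N := 64
  m := 10
  L2 := 0
  hs := 5528156101
  rq := 1
  rg := 1
  sq := [105149]
  sg := [0]
  C := [398110]
  lam := [464128168997, 467366916412, 470605898492, 473844768713, 477083485602, 480322486378, 483560869107, 486799900313, 490038769641, 493277435384, 496513109956]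
  rows := [⟨470116039623, [0], [39677], 0⟩,
    ⟨468837672154, [42963], [39690], 0⟩,
    ⟨467559304685, [85926], [39704], 0⟩,
    ⟨466280937216, [128889], [39717], 0⟩,
    ⟨465002569747, [171852], [39730], 0⟩,
    ⟨463724202278, [214815], [39744], 0⟩,
    ⟨462445405178, [257779], [39757], 0⟩,
    ⟨461167037709, [300742], [39771], 0⟩,
    ⟨459888670240, [343705], [39784], 0⟩,
    ⟨458610302771, [386668], [39797], 0⟩,
    ⟨457328460856, [429631], [39811], 0⟩]

theorem ok9 : certOK cert9 tab64 = true := by decide +kernel

theorem good9 : Good ((2 ^ 28 : ℕ) : ℝ) tabs cert9 := good_of ok9 (by decide +kernel)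

end Run7.h391
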